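import Mathlib

set_option autoImplicit false

namespace Pool.Agent.H.MP_0ee5c7_al

@[ext] structure L where
  f : ℤ →₀ ZMod 2
  n : ℤ

noncomputable def sh (n : ℤ) (f : ℤ →₀ ZMod 2) : ℤ →₀ ZMod 2 :=
  Finsupp.equivMapDomain (Equiv.addRight n) f

@[simp] lemma sh_apply (n : ℤ) (f : ℤ →₀ ZMod 2) (p : ℤ) : sh n f p = f (p - n) := by
  simp [sh, sub_eq_add_neg]

noncomputable instance : Mul L := ⟨fun g h => ⟨g.f + sh g.n h.f, g.n + h.n⟩⟩
instance : One L := ⟨⟨0, 0⟩⟩
noncomputable instance : Inv L := ⟨fun g => ⟨-sh (-g.n) g.f, -g.n⟩⟩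

@[simp] lemma mul_f (g h : L) (p : ℤ) : (g * h).f p = g.f p + h.f (p - g.n) := by
  show (g.f + sh g.n h.f) p = _
  simp
@[simp] lemma mul_n (g h : L) : (g * h).n = g.n + h.n := rfl
@[simp] lemma one_f : (1 : L).f = 0 := rfl
@[simp] lemma one_n : (1 : L).n = 0 := rfl
@[simp] lemma inv_f (g : L) (p : ℤ) : (g⁻¹).f p = -g.f (p + g.n) := by
  show (-sh (-g.n) g.f) p = _
  simp
@[simp] lemma inv_n (g : L) : (g⁻¹).n = -g.n := rfl

noncomputable instance : Group L := Group.ofLeftAxioms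
  (fun a b c => by ext <;> simp [add_assoc, sub_sub])
  (fun a => by ext <;> simp) (fun a => by ext <;> simp [CharTwo.add_self_eq_zero])

noncomputable def a : L := ⟨Finsupp.single 0 1, 0⟩
def t : L := ⟨0, 1⟩

lemma mul_a (g : L) : g * a = ⟨g.f + Finsupp.single g.n 1, g.n⟩ := by
  ext p
  · simp [a, Finsupp.single_apply, eq_comm, sub_eq_zero]
  · simp [a]

lemma mul_t (g : L) : g * t = ⟨g.f, g.n + 1⟩ := by ext <;> simp [t]

lemma reach (P : L → Prop) (q : Option ℤ) (g : L) (h0 : P g)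
    (h1 : ∀ f n, (∀ x ∈ q, f x = g.f x) → (P ⟨f, n⟩ ↔ P ⟨f, n + 1⟩))
    (h2 : ∀ f n, (∀ x ∈ q, f x = g.f x) → n ∉ q → P ⟨f, n⟩ → P ⟨f + Finsupp.single n 1, n⟩)
    (h : L) (e : ∀ x ∈ q, h.f x = g.f x) : P h := by
  have mv : ∀ f n m, (∀ x ∈ q, f x = g.f x) → P ⟨f, n⟩ → P ⟨f, m⟩ := fun f n m c d => by
    have : ∀ k, P ⟨f, n⟩ ↔ P ⟨f, k⟩ := fun k => by
      induction k using Int.inductionOn' with
      | b => exact n
      | zero => rfl
      | succ k _ ih => exact ih.trans (h1 f k c)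
      | pred k _ ih => exact ih.trans (by simpa using (h1 f (k - 1) c).symm)
    exact (this m).1 d
  have key : ∀ d : ℤ →₀ ZMod 2, (∀ x ∈ q, d x = 0) → P ⟨g.f + d, 0⟩ := fun d => by
    induction d using Finsupp.induction with
    | zero => exact fun _ => by simpa using mv g.f g.n 0 (fun _ _ => rfl) h0
    | single_add p b d c1 c2 ih =>
      intro c
      obtain rfl : b = 1 := (by decide : ∀ b : ZMod 2, b ≠ 0 → b = 1) b c2
      have c3 : p ∉ q := fun c3 => by
        have := c p c3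
        simp [Finsupp.notMem_support_iff.1 c1] at this
      have c4 : ∀ x ∈ q, d x = 0 := fun x c4 => by
        have := c x c4
        rwa [Finsupp.add_apply, Finsupp.single_eq_of_ne (by rintro rfl; exact c3 c4),
          zero_add] at this
      have c5 : ∀ x ∈ q, (g.f + d) x = g.f x := fun x c5 => by simp [c4 x c5]
      have := h2 _ p c5 c3 (mv _ 0 p c5 (ih c4))
      rw [add_comm (Finsupp.single p 1), ← add_assoc]
      exact mv _ p 0 (fun x c6 => by simpa [add_assoc, add_comm d] using c x c6) this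
  have := key (h.f - g.f) fun x c => by simp [e x c]
  rw [add_sub_cancel] at this
  exact mv _ 0 h.n e this

open Classical in
noncomputable def S : Finset L := {a, t}

lemma gen : Subgroup.closure (S : Set L) = ⊤ := by
  have ha : a ∈ Subgroup.closure (S : Set L) := Subgroup.subset_closure (by simp [S])
  have ht : t ∈ Subgroup.closure (S : Set L) := Subgroup.subset_closure (by simp [S])
  refine eq_top_iff.2 fun h _ => reach (· ∈ Subgroup.closure (S : Set L)) none 1 (one_mem _)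
    (fun f n _ => ?_) (fun f n _ _ c => ?_) h (by simp)
  · rw [← mul_t ⟨f, n⟩, Subgroup.mul_mem_cancel_right _ ht]
  · rw [← mul_a ⟨f, n⟩]; exact mul_mem c ha

def Γ : SimpleGraph L where
  Adj g h := g ≠ h ∧ ∃ s ∈ S, h = g * s ∨ g = h * s
  symm := ⟨fun _ _ ⟨c, s, d, e⟩ => ⟨c.symm, s, d, e.symm⟩⟩
  loopless := ⟨fun _ c => c.1 rfl⟩

lemma adj_t (f : ℤ →₀ ZMod 2) (n : ℤ) : Γ.Adj ⟨f, n⟩ ⟨f, n + 1⟩ :=
  ⟨by simp, t, by simp [S], Or.inl (mul_t ⟨f, n⟩).symm⟩

lemma adj_a (f : ℤ →₀ ZMod 2) (n : ℤ) : Γ.Adj ⟨f, n⟩ ⟨f + Finsupp.single n 1, n⟩ :=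
  ⟨by simp, a, by simp [S], Or.inl (mul_a ⟨f, n⟩).symm⟩

lemma adj_cases {g h : L} (c : Γ.Adj g h) :
    (h.n = g.n ∧ ∀ p, p ≠ g.n → h.f p = g.f p) ∨ (h.f = g.f ∧ (h.n = g.n + 1 ∨ g.n = h.n + 1)) := by
  obtain ⟨-, s, c1, c2⟩ := c
  simp only [S, Finset.mem_insert, Finset.mem_singleton] at c1
  rcases c1 with rfl | rfl <;> rcases c2 with rfl | rfl
  · exact Or.inl ⟨by simp [mul_a], fun p c => by simp [mul_a, Finsupp.single_eq_of_ne c]⟩
  · exact Or.inl ⟨by simp [mul_a], fun p c => by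
      simp only [mul_a] at c ⊢; simp [Finsupp.single_eq_of_ne c]⟩
  · simp [mul_t]
  · simp [mul_t]

lemma conn : Γ.Connected := by
  refine (SimpleGraph.connected_iff _).2 ⟨fun g h => ?_, ⟨1⟩⟩
  exact reach (Γ.Reachable g) none g (.refl _) (fun f n _ => ⟨fun c => c.trans (adj_t f n).reachable,
    fun c => c.trans (adj_t f n).symm.reachable⟩) (fun f n _ _ c => c.trans (adj_a f n).reachable) h
    (by simp)

lemma close {g h : L} {M : ℕ} (c : Γ.dist g h ≤ M) :
    |g.n - h.n| ≤ M ∧ ∀ p, (M : ℤ) < |p - g.n| → g.f p = h.f p := by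
  obtain ⟨w, hw⟩ := conn.exists_walk_length_eq_dist g h
  rw [← hw] at c
  clear hw
  induction w generalizing M with
  | nil => simp
  | cons e w ih =>
    rcases M with _ | M
    · simp at c
    obtain ⟨c1, c2⟩ := ih (M := M) (by simpa using c)
    push_cast
    rw [abs_le] at c1
    rcases adj_cases e with ⟨d1, d2⟩ | ⟨d1, d2⟩
    · refine ⟨by rw [abs_le]; omega, fun p d => ?_⟩
      rw [← d2 p (by rintro rfl; simp at d; omega), c2 p (by rw [d1]; omega)]
    · refine ⟨by rw [abs_le]; omega, fun p d => ?_⟩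
      rw [← d1, c2 p (by rw [lt_abs] at d ⊢; omega)]

lemma one_end (F : Finset L) : ∃ F' : Finset L, ∀ g h : L, g ∉ F' → h ∉ F' →
    ∃ p : Γ.Walk g h, ∀ v ∈ p.support, v ∉ F := by
  classical
  let U : Finset ℤ := F.biUnion fun g => insert g.n g.f.support
  let W : L → L → Prop := fun g h => ∃ p : Γ.Walk g h, ∀ v ∈ p.support, v ∉ F
  have tr : ∀ {x y z}, W x y → W y z → W x z := fun ⟨p, c⟩ ⟨q, d⟩ =>
    ⟨p.append q, fun v e => by
      rw [SimpleGraph.Walk.mem_support_append_iff] at e; exact e.elim (c v) (d v)⟩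
  have sy : ∀ {x y}, W x y → W y x := fun ⟨p, c⟩ => ⟨p.reverse, by simpa using c⟩
  have st : ∀ {x y}, Γ.Adj x y → x ∉ F → y ∉ F → W x y := fun c d e =>
    ⟨c.toWalk, by simp [d, e]⟩
  have nf : ∀ (g : L) q, q ∉ U → g.f q = 1 → g ∉ F := fun g q c d e =>
    c (Finset.mem_biUnion.2 ⟨g, e, by simp [d]⟩)
  have key : ∀ (g h : L) q, q ∉ U → g.f q = 1 → h.f q = 1 → W g h := fun g h q c d e =>
    reach (W g) (some q) g ⟨.nil, by simpa using nf g q c d⟩
      (fun f n k => have k' : f q = 1 := (k q rfl).trans d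
        ⟨fun l => tr l (st (adj_t f n) (nf _ q c k') (nf _ q c k')),
          fun l => tr l (st (adj_t f n).symm (nf _ q c k') (nf _ q c k'))⟩)
      (fun f n k k1 l => have k' : f q = 1 := (k q rfl).trans d
        tr l (st (adj_a f n) (nf _ q c k') (nf _ q c (by
          have : q ≠ n := by rintro rfl; simp at k1
          simp [k', Finsupp.single_eq_of_ne this]))))
      h (by simp [d, e])
  have fin : {g : L | g.n ∈ U ∧ g.f.support ⊆ U}.Finite := by
    refine Set.Finite.of_finite_image (f := fun g : L => (g.n, g.f.support))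
      ((U ×ˢ U.powerset).finite_toSet.subset ?_) fun g _ h _ e => ?_
    · rintro _ ⟨g, c, rfl⟩; simpa using c
    · simp only [Prod.mk.injEq] at e
      refine L.ext (Finsupp.ext fun p => ?_) e.1
      have := Finset.ext_iff.1 e.2 p
      simp only [Finsupp.mem_support_iff] at this
      revert this
      generalize g.f p = x
      generalize h.f p = y
      revert x y
      decide
  have out : ∀ g : L, g ∉ fin.toFinset → ∃ (g' : L) (q : ℤ), W g g' ∧ q ∉ U ∧ g'.f q = 1 := by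
    intro g c
    by_cases d : ∃ q, q ∉ U ∧ g.f q = 1
    · obtain ⟨q, d1, d2⟩ := d
      exact ⟨g, q, key g g q d1 d2 d2, d1, d2⟩
    push Not at d
    have z : ∀ x : ZMod 2, x ≠ 1 → x = 0 := by decide
    have c1 : g.n ∉ U := fun e => c (by
      simp only [Set.Finite.mem_toFinset, Set.mem_ofPred_eq]
      exact ⟨e, fun q k => by_contra fun l => Finsupp.mem_support_iff.1 k (z _ (d q l))⟩)
    have c2 : (g.f + Finsupp.single g.n 1 : ℤ →₀ ZMod 2) g.n = 1 := by simp [z _ (d _ c1)]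
    exact ⟨⟨_, g.n⟩, g.n, st (adj_a g.f g.n) (fun e => c1 (Finset.mem_biUnion.2 ⟨g, e, by simp⟩))
      (nf _ _ c1 c2), c1, c2⟩
  refine ⟨fin.toFinset, fun g h c d => ?_⟩
  obtain ⟨g', q, c1, c2, c3⟩ := out g c
  obtain ⟨h', r, d1, d2, d3⟩ := out h d
  let k : L := ⟨Finsupp.onFinset {q, r} (fun p => if p = q ∨ p = r then 1 else 0)
    (fun p e => by by_contra l; simp at l; simp [l] at e), 0⟩
  exact tr c1 (tr (key g' k q c2 c3 (by simp [k])) (tr (key k h' r d2 (by simp [k]) d3) (sy d1)))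

def bit (m b : ℕ) : ZMod 2 := if m.testBit b then 1 else 0

lemma bit_inj {m m' b b' : ℕ} (h : bit m b = bit m' b') : m.testBit b = m'.testBit b' := by
  unfold bit at h
  cases c : m.testBit b <;> cases d : m'.testBit b' <;> simp_all

def e (r : ℕ) : ℕ := padicValNat 2 r / 2 + 1

lemma e1 (r : ℕ) : 2 ^ (2 * e r - 2) ∣ r :=
  (pow_dvd_pow 2 (by unfold e; omega)).trans pow_padicValNat_dvd

lemma e2 {r : ℕ} (h : r ≠ 0) : ¬ 2 ^ (2 * e r) ∣ r := by
  rw [padicValNat_dvd_iff_le h]; unfold e; omega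

def code (r p : ℕ) : ZMod 2 :=
  if p ≤ e r then 1 else if p = e r + 1 then 0 else bit r (p + e r - 4)

noncomputable def pt (r i m : ℕ) : L :=
  ⟨Finsupp.onFinset (Finset.Icc 0 (i + m))
    (fun p => if p ≤ 0 then 0 else if p ≤ i then code r p.toNat else bit m (p.toNat - 1))
    fun p h => by
      rw [Finset.mem_Icc]
      split_ifs at h with c d
      · simp at h
      · omega
      · refine ⟨by omega, by_contra fun l => h ?_⟩
        rw [bit, Nat.testBit_lt_two_pow (Nat.lt_two_pow_self.trans_le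
          (Nat.pow_le_pow_right two_pos (by omega)))]
        rfl, i⟩

lemma pt_f (r i m : ℕ) (p : ℤ) : (pt r i m).f p =
    if p ≤ 0 then 0 else if p ≤ i then code r p.toNat else bit m (p.toNat - 1) := rfl

lemma pt_step (r i m : ℕ) : Γ.dist (pt r i m) (pt r (i + 1) m) ≤ 2 := by
  have c := adj_t (pt r i m).f i
  have z : ∀ x y : ZMod 2, y ≠ x → y = x + 1 := by decide
  have c1 := SimpleGraph.dist_eq_one_iff_adj.2 c
  have d : ∀ p, p ≠ (i + 1 : ℤ) → (pt r (i + 1) m).f p = (pt r i m).f p := fun p d => by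
    simp only [pt_f]
    push_cast
    split_ifs <;> first | rfl | omega
  refine (conn.dist_triangle (v := ⟨(pt r i m).f, i + 1⟩)).trans ?_
  change Γ.dist ⟨(pt r i m).f, i⟩ _ + _ ≤ _
  rw [c1]
  by_cases k : (pt r (i + 1) m).f (i + 1) = (pt r i m).f (i + 1)
  · have : pt r (i + 1) m = ⟨(pt r i m).f, i + 1⟩ :=
      L.ext (Finsupp.ext fun p => by by_cases l : p = i + 1; exacts [l ▸ k, d p l]) rfl
    simp [this]
  · have : pt r (i + 1) m = ⟨(pt r i m).f + Finsupp.single ((i : ℤ) + 1) 1, i + 1⟩ :=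
      L.ext (Finsupp.ext fun p => by
        by_cases l : p = i + 1
        · subst l; simpa using z _ _ k
        · simp [d p l, Finsupp.single_eq_of_ne l]) rfl
    rw [this, SimpleGraph.dist_eq_one_iff_adj.2 (adj_a _ _)]

lemma div_pred {r u : ℕ} (h : r ≠ 0) : (r - 1) / 2 ^ u = r / 2 ^ u ↔ ¬ 2 ^ u ∣ r := by
  obtain ⟨r, rfl⟩ := Nat.exists_eq_succ_of_ne_zero h
  rw [Nat.succ_div]
  split_ifs with c <;> simp [c]

lemma pt_top {r : ℕ} (h : r ≠ 0) : pt r (2 * e r) (r - 1) = pt r (2 * e r) r := by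
  refine L.ext (Finsupp.ext fun p => ?_) rfl
  simp only [pt_f]
  split_ifs with c d
  · rfl
  · rfl
  · obtain ⟨b, hb⟩ : ∃ b, p.toNat - 1 = 2 * e r + b := ⟨p.toNat - 1 - 2 * e r, by omega⟩
    simp only [bit, hb, add_comm (2 * e r), ← Nat.testBit_div_two_pow, (div_pred h).2 (e2 h)]

lemma pt_bot (r r' m : ℕ) : pt r 0 m = pt r' 0 m := by
  refine L.ext (Finsupp.ext fun p => ?_) rfl
  simp only [pt_f]
  split_ifs <;> first | rfl | omega

def B : ℕ → ℕ
  | 0 => 0
  | m + 1 => B m + 4 * e (m + 1)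

def sq : ℕ → ℕ × ℕ
  | 0 => (0, 0)
  | n + 1 => if (sq n).2 + 1 < 4 * e ((sq n).1 + 1) then ((sq n).1, (sq n).2 + 1) else ((sq n).1 + 1, 0)

lemma sq_inv (n : ℕ) : n = B (sq n).1 + (sq n).2 ∧ (sq n).2 < 4 * e ((sq n).1 + 1) := by
  induction n with
  | zero => simp [sq, B, e]
  | succ n ih =>
    rw [sq]
    split_ifs with c
    · exact ⟨by simp; omega, c⟩
    · exact ⟨by simp [B]; omega, by simp [e]⟩

lemma sq_B (m j : ℕ) (h : j < 4 * e (m + 1)) : sq (B m + j) = (m, j) := by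
  induction m generalizing j with
  | zero =>
    induction j with
    | zero => rfl
    | succ j ih => rw [← add_assoc, sq, ih (by omega), if_pos h]
  | succ m ih =>
    induction j with
    | zero =>
      obtain ⟨k, hk⟩ : ∃ k, 4 * e (m + 1) = k + 1 := ⟨4 * e (m + 1) - 1, by unfold e; omega⟩
      rw [add_zero, B, hk, ← add_assoc, sq, ih k (by omega), if_neg (by simp; omega)]
    | succ j ih => rw [← add_assoc, sq, ih (by omega), if_pos h]

noncomputable def pj (m j : ℕ) : L :=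
  if j ≤ 2 * e (m + 1) then pt (m + 1) j m else pt (m + 1) (4 * e (m + 1) - j) (m + 1)

noncomputable def P (n : ℕ) : L := pj (sq n).1 (sq n).2

lemma P_step (n : ℕ) : Γ.dist (P n) (P (n + 1)) ≤ 2 := by
  have c := (sq_inv n).2
  rw [P, P, sq]
  generalize (sq n).1 = m at *
  generalize (sq n).2 = j at *
  have top := pt_top (r := m + 1) (by omega)
  have e0 : 1 ≤ e (m + 1) := by unfold e; omega
  split_ifs with d <;> dsimp only [pj]
  · split_ifs with k l
    · exact pt_step _ _ _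
    · obtain rfl : j = 2 * e (m + 1) := by omega
      rw [Nat.add_sub_cancel] at top
      rw [top, SimpleGraph.dist_comm]
      convert pt_step (m + 1) (2 * e (m + 1) - 1) (m + 1) using 3 <;> omega
    · omega
    · rw [SimpleGraph.dist_comm]
      convert pt_step (m + 1) (4 * e (m + 1) - (j + 1)) (m + 1) using 3
      omega
  · rw [if_neg (by omega), if_pos (by omega), SimpleGraph.dist_comm, pt_bot _ (m + 1)]
    convert pt_step (m + 1) 0 (m + 1) using 3
    omega

lemma P_lip (n k : ℕ) : Γ.dist (P n) (P (n + k)) ≤ 2 * k := by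
  induction k with
  | zero => simp
  | succ k ih =>
    have := P_step (n + k)
    have := conn.dist_triangle (u := P n) (v := P (n + k)) (w := P (n + k + 1))
    rw [← add_assoc]
    omega

lemma B_le (u m k : ℕ) (h : m / 2 ^ u = (m + k) / 2 ^ u) :
    B m ≤ B (m + k) ∧ B (m + k) ≤ B m + k * (2 * u + 4) := by
  induction k with
  | zero => simp
  | succ k ih =>
    have c1 : m / 2 ^ u ≤ (m + k) / 2 ^ u := Nat.div_le_div_right (by omega)
    have c2 : (m + k) / 2 ^ u ≤ (m + (k + 1)) / 2 ^ u := Nat.div_le_div_right (by omega)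
    have c3 := ih (by omega)
    have c4 := (div_pred (r := m + k + 1) (u := u) (by omega)).1 (by
      rw [Nat.add_sub_cancel, add_assoc]; omega)
    have c5 : 2 * e (m + k + 1) - 2 < u := not_le.1 fun c => c4 ((pow_dvd_pow 2 c).trans (e1 _))
    rw [← add_assoc, B, add_mul]
    omega

lemma B_near (u m m' : ℕ) (h : m / 2 ^ u = m' / 2 ^ u) : B m ≤ B m' + 2 ^ u * (2 * u + 4) := by
  rcases le_total m m' with c | c <;> obtain ⟨k, rfl⟩ := Nat.exists_eq_add_of_le c
  · exact (B_le u m k h).1.trans (Nat.le_add_right _ _)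
  · refine (B_le u m' k h.symm).2.trans (Nat.add_le_add_left (Nat.mul_le_mul_right _ ?_) _)
    have := Nat.div_add_mod (m' + k) (2 ^ u)
    have := Nat.div_add_mod m' (2 ^ u)
    have := Nat.mod_lt (m' + k) (Nat.two_pow_pos u)
    rw [h] at *
    omega

lemma eq_of {r r' u v : ℕ} (h1 : r ≤ r' + 2 ^ u) (h2 : r' ≤ r + 2 ^ u) (h3 : u < v)
    (h4 : r ≡ r' [MOD 2 ^ v]) : r = r' := by
  have := Nat.pow_lt_pow_right (a := 2) (by norm_num) h3
  refine h4.eq_of_abs_lt ?_
  zify at *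
  rw [abs_lt]
  constructor <;> linarith

lemma same {r r' i M : ℕ} (h1 : r ≤ r' + 2 ^ (i + M)) (h2 : r' ≤ r + 2 ^ (i + M))
    (h3 : i ≤ 2 * e r) (h4 : 4 * M + 10 ≤ i)
    (h5 : ∀ p, 1 ≤ p → p + M < i → code r p = code r' p) : r = r' := by
  have key : ∀ r r', (∀ p, 1 ≤ p → p + M < i → code r p = code r' p) → e r < e r' →
      r ≡ r' [MOD 2 ^ (i + M + 1)] := fun r r' c d => by
    have c1 : ¬ e r + 1 + M < i := fun l => by
      have := c (e r + 1) (by omega) l
      simp [code, Nat.succ_le_of_lt d] at this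
    exact ((Nat.modEq_zero_iff_dvd).2 ((pow_dvd_pow 2 (by omega)).trans (e1 r))).trans
      ((Nat.modEq_zero_iff_dvd).2 ((pow_dvd_pow 2 (by omega)).trans (e1 r'))).symm
  refine eq_of h1 h2 (Nat.lt_succ_self _) ?_
  rcases lt_trichotomy (e r) (e r') with c | c | c
  · exact key r r' h5 c
  · refine Nat.eq_of_testBit_eq fun b => ?_
    simp only [Nat.testBit_mod_two_pow]
    by_cases d : b < i + M + 1
    · by_cases k : b < 2 * e r - 2
      · have z : ∀ s, 2 ^ (2 * e r - 2) ∣ s → s.testBit b = false := by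
          rintro _ ⟨s, rfl⟩
          rw [Nat.testBit_two_pow_mul, decide_eq_false (not_le.2 k), Bool.false_and]
        rw [z r (e1 r), z r' (c ▸ e1 r')]
      · have := h5 (b + 4 - e r) (by omega) (by omega)
        rw [code, code, ← c, if_neg (by omega), if_neg (by omega), if_neg (by omega),
          if_neg (by omega), show b + 4 - e r + e r - 4 = b by omega] at this
        rw [bit_inj this]
    · simp [d]
  · exact (key r' r (fun p k l => (h5 p k l).symm) c).symm

lemma P_desc (n : ℕ) : ∃ r i m, P n = pt r i m ∧ i ≤ 2 * e r ∧ r ≠ 0 ∧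
    ((r = m + 1 ∧ n = B m + i) ∨ (r = m ∧ n + i = B m)) := by
  obtain ⟨c1, c2⟩ := sq_inv n
  rw [P, pj]
  split_ifs with c
  · exact ⟨_, _, _, rfl, c, by omega, Or.inl ⟨rfl, c1⟩⟩
  · exact ⟨_, _, _, rfl, by omega, by omega, Or.inr ⟨rfl, by rw [B]; omega⟩⟩

lemma P_unif (M : ℕ) : ∃ N : ℕ, ∀ n n', Γ.dist (P n) (P n') ≤ M → n ≤ n' + N := by
  refine ⟨2 ^ (5 * M + 10) * (2 * (5 * M + 10) + 4) + 9 * M + 30, fun n n' h => ?_⟩
  obtain ⟨r, i, m, c1, c2, c3, c4⟩ := P_desc n
  obtain ⟨r', i', m', d1, d2, d3, d4⟩ := P_desc n'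
  rw [c1, d1] at h
  obtain ⟨h1, h2⟩ := close h
  change |(i : ℤ) - i'| ≤ M at h1
  change ∀ p : ℤ, (M : ℤ) < |p - (i : ℤ)| → _ at h2
  rw [abs_le] at h1
  have up : m / 2 ^ (i + M) = m' / 2 ^ (i + M) := Nat.eq_of_testBit_eq fun b => by
    have := h2 ((b + (i + M) + 1 : ℕ) : ℤ) (lt_abs.2 (Or.inl (by omega)))
    rw [pt_f, pt_f, if_neg (by omega), if_neg (by omega), if_neg (by omega), if_neg (by omega),
      Int.toNat_natCast, Nat.add_sub_cancel] at this
    rw [Nat.testBit_div_two_pow, Nat.testBit_div_two_pow, bit_inj this]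
  by_cases c : 4 * M + 10 ≤ i
  · have k1 := Nat.div_add_mod m (2 ^ (i + M))
    have k2 := Nat.div_add_mod m' (2 ^ (i + M))
    have k3 := Nat.mod_lt m (Nat.two_pow_pos (i + M))
    have k4 := Nat.mod_lt m' (Nat.two_pow_pos (i + M))
    rw [up] at k1
    obtain rfl : r = r' := same (M := M) (by omega) (by omega) c2 c fun p k l => by
      have := h2 p (lt_abs.2 (Or.inr (by omega)))
      rwa [pt_f, pt_f, if_neg (by omega), if_pos (by omega), if_neg (by omega), if_pos (by omega),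
        Int.toNat_natCast] at this
    rcases c4 with ⟨rfl, rfl⟩ | ⟨rfl, c4⟩ <;> rcases d4 with ⟨d4, d5⟩ | ⟨d4, d5⟩
    · obtain rfl : m = m' := by omega
      omega
    · subst d4
      rw [B] at d5
      omega
    · subst d4
      have c5 := (div_pred (r := m' + 1) (u := i + M) (by omega)).1 up.symm
      have c6 : 2 * e (m' + 1) - 2 < i + M := not_le.1 fun c => c5 ((pow_dvd_pow 2 c).trans (e1 _))
      rw [B] at c4
      omega
    · subst d4
      omega
  · have k1 := B_near (5 * M + 10) m m' (by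
      obtain ⟨k, hk⟩ : ∃ k, 5 * M + 10 = i + M + k := ⟨4 * M + 10 - i, by omega⟩
      rw [hk, pow_add, ← Nat.div_div_eq_div_mul, ← Nat.div_div_eq_div_mul, up])
    omega

lemma cover (g : L) (h1 : g.n = 0) (h2 : ∀ p ≤ 0, g.f p = 0) : ∃ n, P n = g := by
  obtain ⟨K, hK⟩ := g.f.support.bddAbove
  let m := Nat.ofBits fun b : Fin K.toNat => decide (g.f (b + 1) = 1)
  refine ⟨B m, ?_⟩
  have := sq_B m 0 (by unfold e; omega)
  rw [add_zero] at this
  rw [P, this, pj, if_pos (by omega)]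
  refine L.ext (Finsupp.ext fun p => ?_) h1.symm
  rw [pt_f]
  split_ifs with c d
  · exact (h2 p c).symm
  · omega
  · have z : ∀ x : ZMod 2, (if decide (x = 1) = true then 1 else 0) = x := by decide
    rw [bit, Nat.testBit_ofBits]
    by_cases k : p.toNat - 1 < K.toNat
    · rw [dif_pos k, show ((⟨p.toNat - 1, k⟩ : Fin _) : ℤ) + 1 = p by simp; omega, z]
    · rw [dif_neg k]
      exact (Finsupp.notMem_support_iff.1 fun l => by have := hK l; omega).symm

end Pool.Agent.H.MP_0ee5c7_al
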